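import Pool.Agent.Helper77.OC.St

/-!
# MP_7a9ddc_co, project OC, module FR: list colourings of forests
-/

set_option autoImplicit false

namespace Pool.Agent.Helper57.OC.FR

open Pool.Agent.Helper35.PM Pool.Agent.Helper77.HY Pool.Agent.Helper77.OC

/-- `a` has at most one neighbour in `T` -/
def LF {V : Type} (G : SimpleGraph V) (T : Finset V) (a : V) : Prop :=
  ∀ b ∈ T, ∀ c ∈ T, G.Adj a b → G.Adj a c → b = c

theorem forest_mono {V : Type} (G : SimpleGraph V) {S T : Set V} (h : S ⊆ T)
    (hT : Forest G T) : Forest G S := fun U hU hne => hT U (hU.trans h) hne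

theorem two_leaves {V : Type} [DecidableEq V] (G : SimpleGraph V) :
    ∀ (n : ℕ) (T : Finset V), T.card = n → 2 ≤ n → Forest G (T : Set V) →
      ∃ a ∈ T, ∃ b ∈ T, a ≠ b ∧ LF G T a ∧ LF G T b := by
  intro n
  induction n with
  | zero => intro T _ h2 _; omega
  | succ n ih =>
    intro T hT h2 hF
    by_cases hn : n + 1 = 2
    · rw [hn] at hT
      obtain ⟨x, y, hxy, rfl⟩ := Finset.card_eq_two.mp hT
      refine ⟨x, by simp, y, by simp, hxy, ?_, ?_⟩
      · intro b hb c hc h1 h2
        simp only [Finset.mem_insert, Finset.mem_singleton] at hb hc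
        rcases hb with rfl | rfl
        · exact absurd h1 (G.irrefl)
        · rcases hc with rfl | rfl
          · exact absurd h2 (G.irrefl)
          · rfl
      · intro b hb c hc h1 h2
        simp only [Finset.mem_insert, Finset.mem_singleton] at hb hc
        rcases hb with rfl | rfl
        · rcases hc with rfl | rfl
          · rfl
          · exact absurd h2 (G.irrefl)
        · exact absurd h1 (G.irrefl)
    · have hne : T.Nonempty := by
        rw [← Finset.card_pos]; omega
      obtain ⟨a, haT, ha⟩ := hF (T : Set V) (subset_refl _) (by simpa using hne)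
      have haT' : a ∈ T := by simpa using haT
      have ha' : LF G T a := by
        intro b hb c hc h1 h2
        exact ha b (by simpa using hb) c (by simpa using hc) h1 h2
      have hcard : (T.erase a).card = n := by
        rw [Finset.card_erase_of_mem haT', hT]; rfl
      obtain ⟨u, hu, v, hv, huv, hlu, hlv⟩ := ih (T.erase a) hcard (by omega)
        (forest_mono G (by
          intro x hx
          have : x ∈ T.erase a := by exact_mod_cast hx
          simpa using Finset.mem_of_mem_erase this) hF)
      have hmain : ∀ w, w ∈ T.erase a → LF G (T.erase a) w → ¬ G.Adj a w → LF G T w := by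
        intro w hw hlw hnadj b hb c hc h1 h2
        have hba : b ≠ a := by
          rintro rfl; exact hnadj h1.symm
        have hca : c ≠ a := by
          rintro rfl; exact hnadj h2.symm
        exact hlw b (Finset.mem_erase.mpr ⟨hba, hb⟩) c (Finset.mem_erase.mpr ⟨hca, hc⟩) h1 h2
      by_cases hau : G.Adj a u
      · by_cases hav : G.Adj a v
        · exact absurd (ha' u (Finset.mem_of_mem_erase hu) v (Finset.mem_of_mem_erase hv) hau hav)
            huv
        · exact ⟨a, haT', v, Finset.mem_of_mem_erase hv, (Finset.ne_of_mem_erase hv).symm, ha',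
            hmain v hv hlv hav⟩
      · exact ⟨a, haT', u, Finset.mem_of_mem_erase hu, (Finset.ne_of_mem_erase hu).symm, ha',
          hmain u hu hlu hau⟩

theorem extend {V : Type} [DecidableEq V] (G : SimpleGraph V) (T : Finset V) (M : V → Finset ℕ)
    (a : V) (ha : a ∈ T) (hl : LF G T a) (hM : 2 ≤ (M a).card) (c : V → ℕ)
    (hc : ColOn G (T.erase a) M c) :
    ∃ c' : V → ℕ, ColOn G T M c' ∧ ∀ v, v ≠ a → c' v = c v := by
  have hcol : ∃ γ ∈ M a, ∀ b ∈ T, G.Adj a b → γ ≠ c b := by
    by_cases hex : ∃ b ∈ T, G.Adj a b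
    · obtain ⟨b, hb, hab⟩ := hex
      obtain ⟨γ, hγ, hne⟩ : ∃ γ ∈ M a, γ ≠ c b :=
        Finset.exists_mem_ne (by omega) (c b)
      refine ⟨γ, hγ, ?_⟩
      intro b' hb' hab'
      rw [hl b' hb' b hb hab' hab]
      exact hne
    · obtain ⟨γ, hγ⟩ : (M a).Nonempty := by
        rw [← Finset.card_pos]; omega
      exact ⟨γ, hγ, fun b hb hab => absurd ⟨b, hb, hab⟩ hex⟩
  obtain ⟨γ, hγ, hγc⟩ := hcol
  refine ⟨Function.update c a γ, ⟨?_, ?_⟩, ?_⟩
  · intro v hv
    by_cases hva : v = a
    · subst hva; simpa using hγ
    · rw [Function.update_of_ne hva]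
      exact hc.1 v (Finset.mem_erase.mpr ⟨hva, hv⟩)
  · intro u hu v hv huv
    by_cases hua : u = a
    · subst hua
      have hvu : v ≠ u := huv.ne'
      rw [Function.update_self, Function.update_of_ne hvu]
      exact hγc v hv huv
    · by_cases hva : v = a
      · subst hva
        rw [Function.update_self, Function.update_of_ne hua]
        exact (hγc u hu huv.symm).symm
      · rw [Function.update_of_ne hua, Function.update_of_ne hva]
        exact hc.2 u (Finset.mem_erase.mpr ⟨hua, hu⟩) v (Finset.mem_erase.mpr ⟨hva, hv⟩) huv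
  · intro v hv
    exact Function.update_of_ne hv _ _

theorem presc {V : Type} [DecidableEq V] (G : SimpleGraph V) (M : V → Finset ℕ) (s : V) (γ : ℕ)
    (hγ : γ ∈ M s) :
    ∀ (n : ℕ) (T : Finset V), T.card = n → Forest G (T : Set V) → (∀ v ∈ T, 2 ≤ (M v).card) →
      s ∈ T → ∃ c, ColOn G T M c ∧ c s = γ := by
  intro n
  induction n with
  | zero =>
    intro T hT _ _ hs
    rw [Finset.card_eq_zero] at hT
    subst hT
    simp at hs
  | succ n ih =>
    intro T hT hF hM hs
    by_cases hn : n = 0
    · subst hn
      obtain ⟨x, rfl⟩ := Finset.card_eq_one.mp hT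
      have hsx : s = x := by simpa using hs
      subst hsx
      refine ⟨fun _ => γ, ⟨?_, ?_⟩, rfl⟩
      · intro v hv
        have : v = s := by simpa using hv
        subst this
        exact hγ
      · intro u hu v hv huv
        have h1 : u = s := by simpa using hu
        have h2 : v = s := by simpa using hv
        subst h1
        subst h2
        exact absurd huv (G.irrefl)
    · obtain ⟨a, ha, b, hb, hab, hla, hlb⟩ := two_leaves G (n + 1) T hT (by omega) hF
      have hex : ∃ w ∈ T, w ≠ s ∧ LF G T w := by
        by_cases has : a = s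
        · exact ⟨b, hb, by rw [← has]; exact hab.symm, hlb⟩
        · exact ⟨a, ha, has, hla⟩
      obtain ⟨w, hw, hws, hlw⟩ := hex
      obtain ⟨c, hc, hcs⟩ := ih (T.erase w) (by rw [Finset.card_erase_of_mem hw, hT]; rfl)
        (forest_mono G (by
          intro x hx
          have : x ∈ T.erase w := by exact_mod_cast hx
          simpa using Finset.mem_of_mem_erase this) hF)
        (fun v hv => hM v (Finset.mem_of_mem_erase hv))
        (Finset.mem_erase.mpr ⟨hws.symm, hs⟩)
      obtain ⟨c', hc', hcc⟩ := extend G T M w hw hlw (hM w hw) c hc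
      exact ⟨c', hc', by rw [hcc s hws.symm, hcs]⟩

theorem main : StFr := by
  classical
  have h2 : ∀ (V : Type) (G : SimpleGraph V) (F : Finset V) (M : V → Finset ℕ) (s : V) (γ : ℕ),
    Forest G (F : Set V) → (∀ v ∈ F, 2 ≤ (M v).card) → s ∈ F → γ ∈ M s →
    ∃ c, ColOn G F M c ∧ c s = γ := by
    intro V G F M s γ hF hM hs hγ
    exact presc G M s γ hγ F.card F rfl hF hM hs
  refine ⟨?_, h2⟩
  intro V G F M hF hM
  rcases F.eq_empty_or_nonempty with rfl | ⟨s, hs⟩
  · exact ⟨fun _ => 0, by intro v hv; simp at hv, by intro v hv; simp at hv⟩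
  · obtain ⟨γ, hγ⟩ : (M s).Nonempty := by
      rw [← Finset.card_pos]; have := hM s hs; omega
    obtain ⟨c, hc, _⟩ := h2 V G F M s γ hF hM hs hγ
    exact ⟨c, hc⟩

end Pool.Agent.Helper57.OC.FR
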